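import Pool.Agent.H83.G.Targets1

/-!
Row LOB of the board g_modules: norm bounds of the Lorentz maps.
-/

set_option autoImplicit false

namespace Pool.Agent.H19.G.LOB

open MeasureTheory Set Pool.Agent.H83.G
open scoped ENNReal NNReal RealInnerProductSpace

private theorem n1 {m : ℕ} (z : Z m) : |z.1| ≤ ‖z‖ := by
  have := norm_fst_le z
  rwa [Real.norm_eq_abs] at this

private theorem n2 {m : ℕ} (z : Z m) : ‖z.2.1‖ ≤ ‖z‖ :=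
  (norm_fst_le z.2).trans (norm_snd_le z)

private theorem n3 {m : ℕ} (z : Z m) : |z.2.2| ≤ ‖z‖ := by
  have := (norm_snd_le z.2).trans (norm_snd_le z)
  rwa [Real.norm_eq_abs] at this

private theorem nle {m : ℕ} (z : Z m) {B : ℝ} (h1 : |z.1| ≤ B) (h2 : ‖z.2.1‖ ≤ B)
    (h3 : |z.2.2| ≤ B) : ‖z‖ ≤ B := by
  rw [Prod.norm_def, Prod.norm_def, max_le_iff, max_le_iff, Real.norm_eq_abs, Real.norm_eq_abs]
  exact ⟨h1, h2, h3⟩

private theorem inner_abs {m : ℕ} (x y : E m) {a b : ℝ} (hx : ‖x‖ ≤ a) (hy : ‖y‖ ≤ b)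
    (ha : 0 ≤ a) : |⟪x, y⟫| ≤ a * b :=
  (abs_real_inner_le_norm x y).trans (mul_le_mul hx hy (norm_nonneg y) ha)

private theorem Lo_bd {m : ℕ} (η : E m) (s D S M : ℝ) (z : Z m) (hD : ‖η‖ ≤ D) (hs0 : 0 ≤ s)
    (hs : s ≤ S) (h1 : 1 + D + D ^ 2 ≤ M) (h2 : S * (1 + 2 * D) ≤ M) (h3 : S ^ 2 ≤ M) :
    ‖Lo η s z‖ ≤ M * ‖z‖ := by
  have hz := norm_nonneg z
  have hD0 : 0 ≤ D := (norm_nonneg η).trans hD
  have hS0 : 0 ≤ S := hs0.trans hs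
  have a1 := n1 z
  have a2 := n2 z
  have a3 := n3 z
  have hη2 : ‖η‖ ^ 2 ≤ D ^ 2 := pow_le_pow_left₀ (norm_nonneg η) hD 2
  refine nle _ ?_ ?_ ?_
  · change |z.1 + ⟪z.2.1, η⟫ + z.2.2 * ‖η‖ ^ 2| ≤ _
    have b1 := inner_abs z.2.1 η a2 hD hz
    have b2 : |z.2.2 * ‖η‖ ^ 2| ≤ ‖z‖ * D ^ 2 := by
      rw [abs_mul, abs_of_nonneg (by positivity : (0 : ℝ) ≤ ‖η‖ ^ 2)]
      exact mul_le_mul a3 hη2 (by positivity) hz
    calc |z.1 + ⟪z.2.1, η⟫ + z.2.2 * ‖η‖ ^ 2| ≤ |z.1| + |⟪z.2.1, η⟫| + |z.2.2 * ‖η‖ ^ 2| := by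
          refine (abs_add_le _ _).trans ?_
          gcongr
          exact abs_add_le _ _
      _ ≤ ‖z‖ + ‖z‖ * D + ‖z‖ * D ^ 2 := by gcongr
      _ = (1 + D + D ^ 2) * ‖z‖ := by ring
      _ ≤ M * ‖z‖ := by gcongr
  · change ‖s • (z.2.1 + (2 * z.2.2) • η)‖ ≤ _
    rw [norm_smul, Real.norm_of_nonneg hs0]
    have b1 : ‖z.2.1 + (2 * z.2.2) • η‖ ≤ ‖z‖ * (1 + 2 * D) := by
      refine (norm_add_le _ _).trans ?_
      rw [norm_smul, Real.norm_eq_abs, abs_mul, abs_two]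
      have : 2 * |z.2.2| * ‖η‖ ≤ 2 * ‖z‖ * D := by gcongr
      linarith
    calc s * ‖z.2.1 + (2 * z.2.2) • η‖ ≤ S * (‖z‖ * (1 + 2 * D)) :=
          mul_le_mul hs b1 (norm_nonneg _) hS0
      _ = S * (1 + 2 * D) * ‖z‖ := by ring
      _ ≤ M * ‖z‖ := by gcongr
  · change |s ^ 2 * z.2.2| ≤ _
    rw [abs_mul, abs_of_nonneg (by positivity : (0 : ℝ) ≤ s ^ 2)]
    have hs2 : s ^ 2 ≤ M := (pow_le_pow_left₀ hs0 hs 2).trans h3
    exact mul_le_mul hs2 a3 (abs_nonneg _) ((by positivity : (0 : ℝ) ≤ s ^ 2).trans hs2)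

private theorem Ld_bd {m : ℕ} (η : E m) (s D : ℝ) (z : Z m) (hD : ‖η‖ ≤ D) (hs0 : 0 ≤ s)
    (hs : s ≤ 1) : ‖Ld η s z‖ ≤ (1 + D) ^ 2 * ‖z‖ := by
  have hz := norm_nonneg z
  have hD0 : 0 ≤ D := (norm_nonneg η).trans hD
  have a1 := n1 z
  have a2 := n2 z
  have a3 := n3 z
  have hη2 : ‖η‖ ^ 2 ≤ D ^ 2 := pow_le_pow_left₀ (norm_nonneg η) hD 2
  have hD2 : 0 ≤ D ^ 2 := by positivity
  have hs2 : s ^ 2 ≤ 1 := pow_le_one₀ hs0 hs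
  refine nle _ ?_ ?_ ?_
  · change |z.1| ≤ _
    nlinarith [mul_nonneg hD0 hz, mul_nonneg hD2 hz]
  · change ‖s • z.2.1 + z.1 • η‖ ≤ _
    refine (norm_add_le _ _).trans ?_
    rw [norm_smul, norm_smul, Real.norm_of_nonneg hs0, Real.norm_eq_abs]
    have b1 : s * ‖z.2.1‖ ≤ 1 * ‖z‖ := mul_le_mul hs a2 (norm_nonneg _) zero_le_one
    have b2 : |z.1| * ‖η‖ ≤ ‖z‖ * D := mul_le_mul a1 hD (norm_nonneg _) hz
    nlinarith [mul_nonneg hD0 hz, mul_nonneg hD2 hz]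
  · change |s ^ 2 * z.2.2 + 2 * s * ⟪z.2.1, η⟫ + z.1 * ‖η‖ ^ 2| ≤ _
    have b1 := inner_abs z.2.1 η a2 hD hz
    have b2 : |z.1 * ‖η‖ ^ 2| ≤ ‖z‖ * D ^ 2 := by
      rw [abs_mul, abs_of_nonneg (by positivity : (0 : ℝ) ≤ ‖η‖ ^ 2)]
      exact mul_le_mul a1 hη2 (by positivity) hz
    have b3 : |s ^ 2 * z.2.2| ≤ 1 * ‖z‖ := by
      rw [abs_mul, abs_of_nonneg (by positivity : (0 : ℝ) ≤ s ^ 2)]
      exact mul_le_mul hs2 a3 (abs_nonneg _) zero_le_one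
    have b4 : |2 * s * ⟪z.2.1, η⟫| ≤ 2 * (‖z‖ * D) := by
      rw [abs_mul, abs_of_nonneg (by positivity : (0 : ℝ) ≤ 2 * s)]
      exact mul_le_mul (by linarith) b1 (abs_nonneg _) (by norm_num)
    calc |s ^ 2 * z.2.2 + 2 * s * ⟪z.2.1, η⟫ + z.1 * ‖η‖ ^ 2|
        ≤ |s ^ 2 * z.2.2| + |2 * s * ⟪z.2.1, η⟫| + |z.1 * ‖η‖ ^ 2| := by
          refine (abs_add_le _ _).trans ?_
          gcongr
          exact abs_add_le _ _
      _ ≤ 1 * ‖z‖ + 2 * (‖z‖ * D) + ‖z‖ * D ^ 2 := by gcongr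
      _ = (1 + D) ^ 2 * ‖z‖ := by ring

theorem pf_LOB (hLOA : T_LOA) : T_LOB := by
  intro m D hD
  obtain ⟨_, _, _, hcomp, hid, _⟩ := hLOA m
  refine ⟨fun η s z hη hs0 hs1 => ⟨?_, Ld_bd η s D z hη hs0 hs1⟩,
    fun η s z hη hs0 hs1 => ?_, fun η η' s s' z hs' hss hη => ?_,
    fun η η' s s' r z hs hs' hr hsr hη hz => ?_⟩
  · exact Lo_bd η s D 1 _ z hη hs0 hs1 (by nlinarith) (by nlinarith) (by nlinarith)
  · have e1 : Lo (-(s⁻¹ • η)) s⁻¹ (Lo η s z) = z := by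
      rw [(hcomp η (-(s⁻¹ • η)) s s⁻¹ z).1, smul_neg, smul_smul, mul_inv_cancel₀ hs0.ne', one_smul,
        add_neg_cancel]
      exact (hid z).1
    have hi : 1 ≤ s⁻¹ := (one_le_inv₀ hs0).2 hs1
    have hi0 : 0 ≤ s⁻¹ := by positivity
    have hi2 : s⁻¹ ≤ (s⁻¹) ^ 2 := by nlinarith
    have h0 : ‖-(s⁻¹ • η)‖ ≤ D * s⁻¹ := by
      rw [norm_neg, norm_smul, Real.norm_of_nonneg hi0, mul_comm]
      gcongr
    have hsq : 0 ≤ (s⁻¹) ^ 2 := by positivity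
    have hDi : D * s⁻¹ ≤ D * (s⁻¹) ^ 2 := mul_le_mul_of_nonneg_left hi2 hD
    have hD2 : 0 ≤ D ^ 2 * (s⁻¹) ^ 2 := by positivity
    have h1 : ‖Lo (-(s⁻¹ • η)) s⁻¹ (Lo η s z)‖ ≤ (1 + D) ^ 2 * (s⁻¹) ^ 2 * ‖Lo η s z‖ := by
      refine Lo_bd (-(s⁻¹ • η)) s⁻¹ (D * s⁻¹) s⁻¹ ((1 + D) ^ 2 * (s⁻¹) ^ 2) (Lo η s z) h0 hi0
        le_rfl ?_ ?_ ?_
      · nlinarith
      · nlinarith
      · nlinarith
    rwa [e1] at h1
  · have hs0 : 0 < s := hs'.trans_le hss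
    have e1 : Lo (s⁻¹ • (η' - η)) (s' / s) (Lo η s z) = Lo η' s' z := by
      rw [(hcomp η _ s _ z).1, smul_smul, mul_inv_cancel₀ hs0.ne', one_smul, add_sub_cancel,
        mul_div_cancel₀ _ hs0.ne']
    rw [← e1]
    refine Lo_bd _ _ D 1 _ _ ?_ (by positivity) ((div_le_one hs0).2 hss) (by nlinarith)
      (by nlinarith) (by nlinarith)
    rw [norm_smul, Real.norm_of_nonneg (by positivity), inv_mul_le_iff₀ hs0, mul_comm]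
    exact hη
  · have e1 : Lo (s'⁻¹ • (η - η')) (s / s') (Lo η' s' z) = Lo η s z := by
      rw [(hcomp η' _ s' _ z).1, smul_smul, mul_inv_cancel₀ hs'.ne', one_smul, add_sub_cancel,
        mul_div_cancel₀ _ hs'.ne']
    rw [← e1]
    set x := Lo η' s' z with hx
    have hx3 : x.2.2 = 0 := by
      rw [hx]
      change s' ^ 2 * z.2.2 = 0
      rw [hz, mul_zero]
    have hη2 : ‖s'⁻¹ • (η - η')‖ ≤ D * r := by
      rw [norm_smul, Real.norm_of_nonneg (by positivity), inv_mul_le_iff₀ hs', norm_sub_rev]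
      linarith
    have hs2 : s / s' ≤ D * r := (div_le_iff₀ hs').2 hsr
    have hx0 := norm_nonneg x
    have a1 := n1 x
    have a2 := n2 x
    have hDr : 0 ≤ D * r := by positivity
    have hr0 : 0 ≤ r := by linarith
    refine nle _ ?_ ?_ ?_
    · change |x.1 + ⟪x.2.1, s'⁻¹ • (η - η')⟫ + x.2.2 * ‖s'⁻¹ • (η - η')‖ ^ 2| ≤ _
      rw [hx3, zero_mul, add_zero]
      have b1 := inner_abs x.2.1 (s'⁻¹ • (η - η')) a2 hη2 hx0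
      refine (abs_add_le _ _).trans ?_
      nlinarith
    · change ‖(s / s') • (x.2.1 + (2 * x.2.2) • (s'⁻¹ • (η - η')))‖ ≤ _
      rw [hx3, mul_zero, zero_smul, add_zero, norm_smul, Real.norm_of_nonneg (by positivity)]
      have : s / s' * ‖x.2.1‖ ≤ D * r * ‖x‖ := mul_le_mul hs2 a2 (norm_nonneg _) hDr
      nlinarith
    · change |(s / s') ^ 2 * x.2.2| ≤ _
      rw [hx3, mul_zero, abs_zero]
      positivity

end Pool.Agent.H19.G.LOB
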