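import Pool.Agent.H83.G.Targets1
import Pool.Agent.H6.G.TRY

/-!
Row TRZ of the board g_modules: identification of `Z m` with a Euclidean space.
-/

set_option autoImplicit false

namespace Pool.Agent.H19.G.TRZ

open MeasureTheory Set Pool.Agent.H83.G
open scoped ENNReal NNReal RealInnerProductSpace

/-- splitting off the last coordinate -/
private noncomputable def PsL (m : ℕ) : EuclideanSpace ℝ (Fin (m + 1)) ≃ₗ[ℝ] (E m × ℝ) where
  toFun x := (WithLp.toLp 2 fun i : Fin m => x i.castSucc, x (Fin.last m))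
  invFun y := WithLp.toLp 2 (Fin.snoc (fun i => y.1 i) y.2 : Fin (m + 1) → ℝ)
  map_add' x y := by
    refine Prod.ext ?_ rfl
    ext i
    rfl
  map_smul' c x := by
    refine Prod.ext ?_ rfl
    ext i
    rfl
  left_inv x := by
    ext i
    refine Fin.lastCases ?_ (fun j => ?_) i
    · simp
    · simp
  right_inv y := by
    refine Prod.ext ?_ ?_
    · ext i
      simp
    · simp

private theorem PsL_mp (m : ℕ) : MeasurePreserving (PsL m) volume volume := by
  have h1 : MeasurePreserving (fun x : EuclideanSpace ℝ (Fin (m + 1)) => (x.ofLp : Fin (m + 1) → ℝ)) :=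
    PiLp.volume_preserving_ofLp (Fin (m + 1))
  have h2 := volume_preserving_piFinSuccAbove (fun _ : Fin (m + 1) => ℝ) (Fin.last m)
  have h3 : MeasurePreserving (fun x : Fin m → ℝ => (WithLp.toLp 2 x : E m)) :=
    PiLp.volume_preserving_toLp (Fin m)
  have h4 : MeasurePreserving (Prod.map id fun x : Fin m → ℝ => (WithLp.toLp 2 x : E m))
      ((volume : Measure ℝ).prod volume) ((volume : Measure ℝ).prod volume) :=
    (MeasurePreserving.id volume).prod h3
  have h5 : MeasurePreserving (Prod.swap : ℝ × E m → E m × ℝ)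
      ((volume : Measure ℝ).prod volume) ((volume : Measure (E m)).prod volume) :=
    Measure.measurePreserving_swap
  have h6 := h5.comp (h4.comp (h2.comp h1))
  have e : (PsL m : EuclideanSpace ℝ (Fin (m + 1)) → E m × ℝ) =
      Prod.swap ∘ (Prod.map id fun x : Fin m → ℝ => (WithLp.toLp 2 x : E m)) ∘
        (MeasurableEquiv.piFinSuccAbove (fun _ : Fin (m + 1) => ℝ) (Fin.last m)) ∘
          fun x : EuclideanSpace ℝ (Fin (m + 1)) => (x.ofLp : Fin (m + 1) → ℝ) := by
    funext x
    refine Prod.ext ?_ ?_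
    · ext i
      simp [PsL, MeasurableEquiv.piFinSuccAbove, Fin.insertNthEquiv]
      rfl
    · simp [PsL, MeasurableEquiv.piFinSuccAbove, Fin.insertNthEquiv]
  rw [e]
  exact h6

theorem pf_TRZ : T_TRZ := by
  intro m
  refine ⟨((Pool.Agent.H6.G.PhL (m + 1)).trans
    ((LinearEquiv.refl ℝ ℝ).prodCongr (PsL m))).toContinuousLinearEquiv, ?_, fun x ξ => ?_⟩
  · have h1 : MeasurePreserving (Prod.map id (PsL m) : ℝ × EuclideanSpace ℝ (Fin (m + 1)) → _)
        ((volume : Measure ℝ).prod volume) ((volume : Measure ℝ).prod volume) :=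
      (MeasurePreserving.id volume).prod (PsL_mp m)
    exact h1.comp (Pool.Agent.H6.G.PhL_mp (m + 1))
  · change x 0 * ξ 0 + ⟪(WithLp.toLp 2 fun i : Fin m => x (i.castSucc).succ : E m),
      (WithLp.toLp 2 fun i : Fin m => ξ (i.castSucc).succ : E m)⟫ +
        x (Fin.last m).succ * ξ (Fin.last m).succ = ⟪x, ξ⟫
    rw [PiLp.inner_apply, PiLp.inner_apply, Fin.sum_univ_succ, Fin.sum_univ_castSucc]
    simp [mul_comm]
    ring

end Pool.Agent.H19.G.TRZ
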