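import Pool.Agent.H83.G.Targets1

/-!
Row WT2 of the board g_modules: integrals of the weights.
-/

set_option autoImplicit false

namespace Pool.Agent.H19.G.WT2

open MeasureTheory Set Pool.Agent.H83.G
open scoped ENNReal NNReal RealInnerProductSpace

private theorem haar1 (m : ℕ) : (volume : Measure (ℝ × E m)).IsAddHaarMeasure := by
  rw [Measure.volume_eq_prod]
  infer_instance

private theorem haar2 (m : ℕ) : (volume : Measure (Z m)).IsAddHaarMeasure := by
  have h1 : (volume : Measure (E m × ℝ)).IsAddHaarMeasure := by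
    rw [Measure.volume_eq_prod]
    infer_instance
  rw [Measure.volume_eq_prod]
  infer_instance

private theorem fin_gen (V : Type) [NormedAddCommGroup V] [NormedSpace ℝ V]
    [FiniteDimensional ℝ V] [MeasurableSpace V] [BorelSpace V] (μ : Measure V)
    [μ.IsAddHaarMeasure] (N : ℕ) (hN : Module.finrank ℝ V < N) :
    ∫⁻ z : V, ENNReal.ofReal (((1 + ‖z‖) ^ N)⁻¹) ∂μ < ⊤ := by
  have h1 : Integrable (fun z : V => (1 + ‖z‖) ^ (-(N : ℝ))) μ :=
    integrable_one_add_norm (by exact_mod_cast hN)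
  have h2 := h1.lintegral_lt_top
  refine lt_of_eq_of_lt (lintegral_congr fun z => ?_) h2
  rw [Real.rpow_neg (by positivity), Real.rpow_natCast]

private theorem smul_change {m : ℕ} (f : Z m → ℝ≥0∞) (c : ℝ) (hc : 0 < c) :
    ∫⁻ z : Z m, f (c • z) = ENNReal.ofReal ((c⁻¹) ^ (m + 2)) * ∫⁻ z, f z := by
  have hfr : Module.finrank ℝ (Z m) = m + 2 := by
    simp [Z, E, Module.finrank_prod]
    ring
  have := haar2 m
  have h1 := Measure.map_addHaar_smul (volume : Measure (Z m)) hc.ne'
  have h2 : ∫⁻ z : Z m, f (c • z) = ∫⁻ z, f z ∂(Measure.map (fun z : Z m => c • z) volume) :=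
    ((Homeomorph.smulOfNeZero c hc.ne' : Z m ≃ₜ Z m).measurableEmbedding.lintegral_map f).symm
  rw [h2]
  change ∫⁻ z, f z ∂(Measure.map (c • ·) volume) = _
  rw [h1, lintegral_smul_measure, hfr, abs_of_nonneg (by positivity), smul_eq_mul, inv_pow]

theorem pf_WT2 (hWT1 : T_WT1) : T_WT2 := by
  intro m N hN
  have := haar1 m
  have := haar2 m
  have hfr : Module.finrank ℝ (Z m) = m + 2 := by
    simp [Z, E, Module.finrank_prod]
    ring
  have hfr' : Module.finrank ℝ (ℝ × E m) = m + 1 := by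
    simp [E, Module.finrank_prod]
    ring
  have f1 : ∫⁻ z : Z m, ENNReal.ofReal (wt N z) < ⊤ :=
    fin_gen (Z m) volume N (by rw [hfr]; omega)
  have f2 : ∫⁻ u : ℝ × E m, ENNReal.ofReal (((1 + ‖u‖) ^ N)⁻¹) < ⊤ :=
    fin_gen (ℝ × E m) volume N (by rw [hfr']; omega)
  set A := ∫⁻ z : Z m, ENNReal.ofReal (wt N z) with hA
  set B := ∫⁻ u : ℝ × E m, ENNReal.ofReal (((1 + ‖u‖) ^ N)⁻¹) with hB
  obtain ⟨h01, _, _, hmono, _, _, hsc⟩ := hWT1 m N
  have hAc : (A.toNNReal : ℝ≥0∞) = A := ENNReal.coe_toNNReal f1.ne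
  have hBc : (B.toNNReal : ℝ≥0∞) = B := ENNReal.coe_toNNReal f2.ne
  have h2N : (1 : ℝ≥0) ≤ 2 ^ (N + 1) := one_le_pow₀ (by norm_num)
  refine ⟨2 ^ (N + 1) * A.toNNReal + B.toNNReal, fun c x hc => ?_, fun x y => ?_, ?_⟩
  · have e1 : ∫⁻ z : Z m, ENNReal.ofReal (wt N (c • z - x)) =
        ENNReal.ofReal ((c⁻¹) ^ (m + 2)) * A := by
      rw [smul_change (fun z => ENNReal.ofReal (wt N (z - x))) c hc,
        lintegral_sub_right_eq_self (fun z => ENNReal.ofReal (wt N z)) x]
    rw [e1, mul_comm]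
    gcongr
    have : A.toNNReal ≤ 2 ^ (N + 1) * A.toNNReal + B.toNNReal := by
      calc A.toNNReal = 1 * A.toNNReal := (one_mul _).symm
        _ ≤ 2 ^ (N + 1) * A.toNNReal := by gcongr
        _ ≤ _ := le_self_add
    rw [← hAc]
    exact_mod_cast this
  · have hpt : ∀ z : Z m, wt N (x - z) * wt N (z - y) ≤
        2 ^ N * wt N (x - y) * (wt N (x - z) + wt N (z - y)) := by
      intro z
      have g1 : wt N ((1 / 2 : ℝ) • (x - y)) ≤ 2 ^ N * wt N (x - y) := by
        have := (hsc (x - y) (1 / 2) (by norm_num) (by norm_num)).2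
        rw [div_pow, one_pow, one_div, inv_mul_le_iff₀ (by positivity)] at this
        exact this
      have p1 := (h01 (x - z)).1
      have p2 := (h01 (z - y)).1
      have p3 := (h01 (x - y)).1
      have g2 : ‖(1 / 2 : ℝ) • (x - y)‖ ≤ ‖x - z‖ ∨ ‖(1 / 2 : ℝ) • (x - y)‖ ≤ ‖z - y‖ := by
        rw [norm_smul, Real.norm_of_nonneg (by norm_num : (0 : ℝ) ≤ 1 / 2)]
        have : ‖x - y‖ ≤ ‖x - z‖ + ‖z - y‖ := norm_sub_le_norm_sub_add_norm_sub x z y
        by_contra hc
        push Not at hc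
        linarith [hc.1, hc.2]
      rcases g2 with h | h
      · have g3 := (hmono _ _ h).trans g1
        calc wt N (x - z) * wt N (z - y) ≤ 2 ^ N * wt N (x - y) * wt N (z - y) := by gcongr
          _ ≤ 2 ^ N * wt N (x - y) * (wt N (x - z) + wt N (z - y)) := by
            gcongr
            linarith
      · have g3 := (hmono _ _ h).trans g1
        calc wt N (x - z) * wt N (z - y) ≤ wt N (x - z) * (2 ^ N * wt N (x - y)) := by gcongr
          _ = 2 ^ N * wt N (x - y) * wt N (x - z) := by ring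
          _ ≤ 2 ^ N * wt N (x - y) * (wt N (x - z) + wt N (z - y)) := by
            gcongr
            linarith
    have e2 : ∫⁻ z : Z m, ENNReal.ofReal (wt N (x - z)) = A := by
      rw [hA, ← lintegral_sub_right_eq_self (fun z : Z m => ENNReal.ofReal (wt N z)) x]
      refine lintegral_congr fun z => ?_
      unfold wt
      rw [norm_sub_rev]
    have e3 : ∫⁻ z : Z m, ENNReal.ofReal (wt N (z - y)) = A :=
      lintegral_sub_right_eq_self (fun z : Z m => ENNReal.ofReal (wt N z)) y
    have hcont : Measurable fun z : Z m => ENNReal.ofReal (wt N (x - z)) := by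
      refine ENNReal.measurable_ofReal.comp (Continuous.measurable ?_)
      exact (hWT1 m N).2.1.comp (by fun_prop)
    calc ∫⁻ z : Z m, ENNReal.ofReal (wt N (x - z) * wt N (z - y))
        ≤ ∫⁻ z : Z m, ENNReal.ofReal (2 ^ N * wt N (x - y)) *
            (ENNReal.ofReal (wt N (x - z)) + ENNReal.ofReal (wt N (z - y))) := by
          refine lintegral_mono fun z => ?_
          have p1 := (h01 (x - z)).1
          have p2 := (h01 (z - y)).1
          have p3 := (h01 (x - y)).1
          rw [← ENNReal.ofReal_add p1.le p2.le, ← ENNReal.ofReal_mul (by positivity)]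
          exact ENNReal.ofReal_le_ofReal (hpt z)
      _ = ENNReal.ofReal (2 ^ N * wt N (x - y)) * (A + A) := by
          rw [lintegral_const_mul' _ _ ENNReal.ofReal_ne_top, lintegral_add_left hcont, e2, e3]
      _ = ((2 ^ (N + 1) * A.toNNReal : ℝ≥0) : ℝ≥0∞) * ENNReal.ofReal (wt N (x - y)) := by
          rw [ENNReal.ofReal_mul (by positivity), ENNReal.ofReal_pow (by norm_num),
            ENNReal.coe_mul, hAc]
          simp only [ENNReal.ofReal_ofNat, ENNReal.coe_pow, ENNReal.coe_ofNat]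
          ring
      _ ≤ _ := by
          gcongr
          exact_mod_cast (le_self_add : 2 ^ (N + 1) * A.toNNReal ≤ _ + B.toNNReal)
  · rw [← hBc]
    exact_mod_cast (le_add_self : B.toNNReal ≤ 2 ^ (N + 1) * A.toNNReal + B.toNNReal)

end Pool.Agent.H19.G.WT2
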